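import Pool.Agent.H17.SD.Targets3

/-!
# MP_70ba79_ag, THEOREM S (surfaces), chapter 1: assembly
-/

set_option autoImplicit false

namespace Pool.Agent.H17.SD

open MvPolynomial SC Pool.Agent.H27.LV
open Pool.Agent.H92.SF Pool.Agent.H3.SF

lemma eu_apply {k F : Type} [Field k] [Field F] [Algebra k F] (u : Fin 3 → F)
    (dd : Fin 3 → Derivation k F F) (a : F) : eu u dd a = ∑ l, u l * dd l a := by
  unfold eu
  simp [Fin.sum_univ_three]

lemma eu_u {k F : Type} [Field k] [Field F] [Algebra k F] (u : Fin 3 → F)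
    (dd : Fin 3 → Derivation k F F) (h : ∀ l j, dd l (u j) = if l = j then 1 else 0) (j : Fin 3) :
    eu u dd (u j) = u j := by
  rw [eu_apply, Finset.sum_eq_single j]
  · rw [h, if_pos rfl, mul_one]
  · intro l _ hl
    rw [h, if_neg hl, mul_zero]
  · intro hj
    exact absurd (Finset.mem_univ _) hj

lemma span_ind {k F σ : Type} [Field k] [Field F] [Algebra k F] {X : σ → F} {p : F → Prop}
    (h0 : p 0) (hX : ∀ s, p (X s)) (ha : ∀ a b, p a → p b → p (a + b))
    (hs : ∀ (c : k) a, p a → p (c • a)) {a : F} (h : a ∈ Submodule.span k (Set.range X)) : p a := by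
  induction h using Submodule.span_induction with
  | mem x hx => obtain ⟨s, rfl⟩ := hx; exact hX s
  | zero => exact h0
  | add x y _ _ hx hy => exact ha x y hx hy
  | smul c x _ hx => exact hs c x hx

theorem pf_SFC (h1 : T_NRM) (h2 : T_DEX) (h3 : T_DPR) (h4 : T_EUL) (h5 : T_JEX) (h6 : T_CHN)
    (h7 : T_BBD) (h8 : T_BBN) (h9 : T_ITA) (h10 : T_GRD) : T_SFC := by
  intro k F σ _ _ _ _ _ X hX
  obtain ⟨u, θ, hind, hul, htl, hXi, hfin, hgen⟩ := h1 k F σ X hX
  obtain ⟨dd, hdd⟩ := h2 k F u hind hfin
  have hpr := h3 k F u dd hfin hdd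
  have hXe : ∀ s, eu u dd (X s) = X s := h4 k F σ X hX.hmg u (eu u dd) hind hul hXi (eu_u u dd hdd)
  have hte : eu u dd θ = θ := span_ind (p := fun a => eu u dd a = a) (map_zero _) hXe
    (fun a b ha hb => by rw [map_add, ha, hb]) (fun c a ha => by rw [Derivation.map_smul, ha]) htl
  have hti : Itg k u θ := span_ind (p := fun a => Itg k u a) (Bb k u).zero_mem hXi
    (fun a b ha hb => (Bb k u).add_mem ha hb) (fun c a ha => (Bb k u).smul_mem ha c) htl
  obtain ⟨J, j0, hJh, hJ0, hJI, hJd, hJq⟩ := h5 k F u θ dd hind hfin hgen hti hdd hte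
  have hB := h7 k F u θ dd J j0 hind hfin hgen hti hdd hte hJh hJ0 hJI
  have hN := h8 k F u θ dd J j0 _ hind hfin rfl hgen hti hdd hte hJh hJ0 hJI
  have hPB : ∀ a ∈ PB k u θ, Itg k u a := by
    intro a ha
    have hle : PB k u θ ≤ Bb k u := by
      refine Algebra.adjoin_le ?_
      rintro b (rfl | ⟨l, rfl⟩)
      · exact hti
      · refine (h9 k F (Fin 3) u (u l)).2 ?_
        exact isIntegral_algebraMap (R := PA k u) (x := ⟨u l, Algebra.subset_adjoin ⟨l, rfl⟩⟩)
    exact hle ha
  refine ⟨u, θ, dd, Module.finrank (kF k u) F, j0, j0 + Module.finrank (kF k u) F + 2, J, ?_, ?_,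
    hfin⟩
  · exact ⟨hind, rfl, Module.finrank_pos, hdd, fun l l' a => hpr.2 l l' a, hJh, hJ0,
      fun l a ha => hPB _ (hJd a l ha), h6 k F u θ dd J hind hfin hti hdd hJI hJd hJq,
      h10 k F σ X u θ dd J j0 hX.hmg hul htl hXe hJh
        (fun h0 => hJ0 ((injective_iff_map_eq_zero _).1 hind J h0)) hJI, hB.1,
      hB.2.1, hN.1, hN.2⟩
  · exact ⟨hul, htl, hXi, hXe, hgen, hJI, hJd, hJq⟩

theorem pf_CRV (h1 : T_CRH) (h9 : T_ITA) : T_CRV := by
  intro k F σ _ _ _ _ _ _ X hX u θ dd δ j0 c0 J hS hP m G hm hG hG0 hsm hprm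
  have hXB : ∀ a ∈ PA k X, Itg k u a := by
    intro a ha
    have hle : PA k X ≤ Bb k u := by
      refine Algebra.adjoin_le ?_
      rintro b ⟨s, rfl⟩
      exact hP.Xint s
    exact hle ha
  have huX : ∀ a ∈ PA k u, a ∈ PA k X := by
    intro a ha
    have hle : PA k u ≤ PA k X := by
      refine Algebra.adjoin_le ?_
      rintro b ⟨l, rfl⟩
      exact span_ind (p := fun a => a ∈ PA k X) (PA k X).zero_mem
        (fun s => Algebra.subset_adjoin ⟨s, rfl⟩) (fun a b ha hb => (PA k X).add_mem ha hb)
        (fun c a ha => (PA k X).smul_mem ha c) (hP.ulin l)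
    exact hle ha
  have hiff : ∀ a : F, IsIntegral (PA k X) a ↔ Itg k u a := by
    intro a
    constructor
    · rintro ⟨p, hp, hpa⟩
      -- integral over integral elements
      have h2 : IsIntegral (Bb k u) a := by
        refine ⟨p.map (Subalgebra.inclusion (show PA k X ≤ Bb k u from hXB)).toRingHom,
          hp.map _, ?_⟩
        rw [Polynomial.eval₂_map]
        exact hpa
      rw [h9]
      have h3 : Algebra.IsIntegral (PA k u) (integralClosure (PA k u) F) := inferInstance
      have h4 : IsIntegral (integralClosure (PA k u) F) a := by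
        obtain ⟨q, hq, hqa⟩ := h2
        have hle : ∀ b ∈ Bb k u, b ∈ integralClosure (PA k u) F := fun b hb => (h9 _ _ _ _ _).1 hb
        let ι : Bb k u →+* integralClosure (PA k u) F :=
          { toFun := fun b => ⟨b, hle b b.2⟩
            map_one' := rfl
            map_mul' := fun _ _ => rfl
            map_zero' := rfl
            map_add' := fun _ _ => rfl }
        refine ⟨q.map ι, hq.map _, ?_⟩
        rw [Polynomial.eval₂_map]
        exact hqa
      exact isIntegral_trans a h4
    · intro h
      rw [h9] at h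
      obtain ⟨p, hp, hpa⟩ := h
      refine ⟨p.map (Subalgebra.inclusion (show PA k u ≤ PA k X from huX)).toRingHom,
        hp.map _, ?_⟩
      rw [Polynomial.eval₂_map]
      exact hpa
  obtain ⟨c, hc⟩ := h1 k F σ X u dd m G hX.trd hS.ind hP.ulin hP.Xint hS.du
    (fun l j a => hS.comm l j a) hP.Xeu hm hG hsm
  refine ⟨hG0, ?_, ?_, ⟨c, fun i => ?_⟩, ?_⟩
  rotate_left 2
  · obtain ⟨e, he, h2⟩ := hc i
    exact ⟨e, fun l => ⟨(he l).2.1, (he l).2.2⟩, h2⟩
  rotate_right 2
  · refine hXB _ ?_
    change aeval X G ∈ Algebra.adjoin k (Set.range X)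
    rw [Algebra.adjoin_range_eq_range_aeval]
    exact ⟨G, rfl⟩
  · -- homogeneous
    unfold Hm
    have key : ∀ (p : MvPolynomial σ k), eu u dd (aeval X p) =
        ∑ s, aeval X (pderiv s p) * X s := by
      intro p
      have h2 : ∀ p : MvPolynomial σ k, eu u dd (aeval X p) =
          ∑ s, aeval X (pderiv s p) * eu u dd (X s) := by
        intro p
        induction p using MvPolynomial.induction_on with
        | C a =>
          rw [algHom_C, Derivation.map_algebraMap]
          symm
          refine Finset.sum_eq_zero fun s _ => ?_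
          rw [pderiv_C, map_zero, zero_mul]
        | add p q hp hq =>
          rw [map_add, map_add, hp, hq, ← Finset.sum_add_distrib]
          refine Finset.sum_congr rfl fun s _ => ?_
          rw [map_add, map_add, add_mul]
        | mul_X p i hp =>
          rw [map_mul, aeval_X, Derivation.leibniz, hp, smul_eq_mul, smul_eq_mul, Finset.mul_sum]
          have h3 : ∀ s, aeval X (pderiv s (p * MvPolynomial.X i)) * eu u dd (X s) =
              aeval X p * (aeval X (pderiv s (MvPolynomial.X i : MvPolynomial σ k)) *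
                eu u dd (X s)) + X i * (aeval X (pderiv s p) * eu u dd (X s)) := by
            intro s
            rw [Derivation.leibniz, smul_eq_mul, smul_eq_mul, map_add, map_mul, map_mul, aeval_X]
            ring
          rw [Finset.sum_congr rfl fun s _ => h3 s, Finset.sum_add_distrib, ← Finset.mul_sum]
          congr 2
          rw [Finset.sum_eq_single i]
          · rw [pderiv_X_self, map_one, one_mul]
          · intro s _ hs
            rw [pderiv_X_of_ne hs.symm, map_zero, zero_mul, mul_zero]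
          · intro h
            exact absurd (Finset.mem_univ _) h
      rw [h2]
      exact Finset.sum_congr rfl fun s _ => by rw [hP.Xeu]
    rw [key]
    have he := hG.sum_X_mul_pderiv
    have h3 := congrArg (aeval X) he
    rw [map_sum, map_nsmul] at h3
    rw [show ((m : ℤ) : F) = (m : F) by push_cast; rfl, ← nsmul_eq_mul, ← h3]
    refine Finset.sum_congr rfl fun s _ => ?_
    rw [map_mul, aeval_X, mul_comm]
  · intro a b ha hb hab
    have := hprm a b ((hiff a).2 ha) ((hiff b).2 hb) ((hiff _).2 hab)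
    rwa [hiff, hiff] at this

end Pool.Agent.H17.SD
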