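import Mathlib

/-!
# MP_70ba79_ag, THEOREM S (surfaces), chapter 1: the data of a surface and of a smooth curve on it

`F` is the function field of the cone over a surface `Y` in projective space, `X s` are the
homogeneous coordinates, `u` are three linear forms such that all `X s` are integral over `k[u]`,
`θ` is a linear form which generates `F` over `k(u)`.
-/

set_option autoImplicit false

namespace Pool.Agent.H17.SD

open MvPolynomial

section Basic

variable (k : Type) {F : Type} [Field k] [Field F] [Algebra k F]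

/-- `a` is integral over `k[v]` -/
def Itg {ι : Type} (v : ι → F) (a : F) : Prop := IsIntegral (Algebra.adjoin k (Set.range v)) a

variable {k}

/-- the Euler derivation -/
noncomputable def eul (u : Fin 3 → F) (dd : Fin 3 → Derivation k F F) : Derivation k F F :=
  ∑ l, u l • dd l

end Basic

/-- The data of a surface. `dd l` is the derivation with respect to `u l`, `J` is a form of degree
`j0` in `k[u]` with `J a` and `J dd l a` in `k[u, θ]` for all `a` integral over `k[u]`; `δ` is the
degree of the surface. -/
structure Sfc (k F σ : Type) [Field k] [Field F] [Algebra k F] [Fintype σ] where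
  X : σ → F
  u : Fin 3 → F
  θ : F
  dd : Fin 3 → Derivation k F F
  J : F
  δ : ℕ
  j0 : ℕ
  ind : AlgebraicIndependent k u
  ddu : ∀ l j, dd l (u j) = if l = j then 1 else 0
  ulin : ∀ l, u l ∈ Submodule.span k (Set.range X)
  tlin : θ ∈ Submodule.span k (Set.range X)
  Xint : ∀ s, Itg k u (X s)
  Xeu : ∀ s, eul u dd (X s) = X s
  fin : FiniteDimensional (IntermediateField.adjoin k (Set.range u)) F
  rk : Module.finrank (IntermediateField.adjoin k (Set.range u)) F = δ
  gen : IntermediateField.adjoin (IntermediateField.adjoin k (Set.range u)) {θ} = ⊤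
  Jm : J ∈ Algebra.adjoin k (Set.range u)
  J0 : J ≠ 0
  Jeu : eul u dd J = (j0 : F) * J
  JI : ∀ a, Itg k u a → J * a ∈ Algebra.adjoin k (insert θ (Set.range u))
  Jd : ∀ a l, Itg k u a → J * dd l a ∈ Algebra.adjoin k (insert θ (Set.range u))

namespace Sfc

variable {k F σ : Type} [Field k] [Field F] [Algebra k F] [Fintype σ] (Y : Sfc k F σ)

/-- `a` is integral over `k[u]` -/
def It (a : F) : Prop := Itg k Y.u a

/-- the Euler derivation -/
noncomputable def E : Derivation k F F := eul Y.u Y.dd

/-- `k[u]` -/
abbrev A : Subalgebra k F := Algebra.adjoin k (Set.range Y.u)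

/-- `k[u, θ]`, free over `k[u]` with the basis `1, θ, …, θ ^ (δ - 1)` -/
abbrev B : Subalgebra k F := Algebra.adjoin k (insert Y.θ (Set.range Y.u))

/-- the field `k(u)` -/
abbrev kU : IntermediateField k F := IntermediateField.adjoin k (Set.range Y.u)

/-- the elements of degree `t` which are integral over `k[u]` -/
def BB (t : ℤ) : Submodule k F where
  carrier := {a | Y.It a ∧ Y.E a = (t : F) * a}
  zero_mem' := ⟨isIntegral_zero, by simp⟩
  add_mem' := by
    rintro a b ⟨h1, h2⟩ ⟨h3, h4⟩
    exact ⟨IsIntegral.add h1 h3, by rw [map_add, h2, h4, mul_add]⟩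
  smul_mem' := by
    rintro c a ⟨h1, h2⟩
    refine ⟨?_, by rw [Derivation.map_smul, h2, mul_smul_comm]⟩
    rw [Algebra.smul_def]
    exact IsIntegral.mul (isIntegral_algebraMap (R := Algebra.adjoin k (Set.range Y.u))
      (x := algebraMap k _ c)) h1

end Sfc

/-- The data of a form `G` of degree `m` which defines a smooth irreducible curve on the surface:
`cert` is the smoothness, `prm` says that `G` generates a prime ideal in the ring of elements which
are integral over `k[u]`, `mon` that `u 0, u 1` have no common zero on the curve. -/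
structure Crv {k F σ : Type} [Field k] [Field F] [Algebra k F] [Fintype σ] (Y : Sfc k F σ) (m : ℕ)
    (G : F) : Prop where
  mem : G ∈ Algebra.adjoin k (Set.range Y.X)
  itg : Y.It G
  hom : Y.E G = (m : F) * G
  ne : G ≠ 0
  big : Y.j0 < m
  cert : ∀ i, ∃ (c : ℕ) (e : Fin 3 → F), (∀ l, Y.It (e l) ∧ Y.E (e l) = ((c : F) + 1 - m) * e l) ∧
    Y.u i ^ c = ∑ l, e l * Y.dd l G
  prm : ∀ a b, Y.It a → Y.It b → Y.It (a * b / G) → Y.It (a / G) ∨ Y.It (b / G)
  mon : ∃ (N : ℕ) (c : Fin N → F), (∀ i, c i ∈ Algebra.adjoin k {Y.u 0, Y.u 1}) ∧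
    Y.It ((Y.u 2 ^ N + ∑ i, c i * Y.u 2 ^ (i : ℕ)) / G)

end Pool.Agent.H17.SD
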