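import Pool.Agent.H3.SF.Defs

/-!
# MP_70ba79_ag, THEOREM S (surfaces), chapter 1: from the geometry to the data. Targets.

`X s` are the homogeneous coordinates of the cone over the surface, `F` is the field generated by
them. The output are `Pool.Agent.H3.SF.Sfc` and `Pool.Agent.H3.SF.Crd`.
-/

set_option autoImplicit false

namespace Pool.Agent.H17.SD

open MvPolynomial SC Pool.Agent.H27.LV
open Pool.Agent.H92.SF Pool.Agent.H3.SF

section Defs

variable {k F : Type} [Field k] [Field F] [Algebra k F] {σ : Type}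

/-- `k[u]` -/
abbrev PA (k : Type) {F ι : Type} [Field k] [Field F] [Algebra k F] (u : ι → F) :
    Subalgebra k F := Algebra.adjoin k (Set.range u)

/-- `k[u, θ]` -/
abbrev PB (k : Type) {F ι : Type} [Field k] [Field F] [Algebra k F] (u : ι → F) (θ : F) :
    Subalgebra k F := Algebra.adjoin k (insert θ (Set.range u))

/-- the derivative of the minimal polynomial at `θ` -/
noncomputable def qd (k : Type) {F ι : Type} [Field k] [Field F] [Algebra k F] (u : ι → F)
    (θ : F) : F := Polynomial.aeval θ (Polynomial.derivative (minpoly (kF k u) θ))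

/-- the elements of degree `t` of a subalgebra -/
def Gr (S : Subalgebra k F) (E : Derivation k F F) (t : ℤ) : Submodule k F where
  carrier := {a | a ∈ S ∧ Hm k E t a}
  add_mem' := fun ha hb => ⟨S.add_mem ha.1 hb.1, by
    have h1 := ha.2
    have h2 := hb.2
    unfold Hm at *
    rw [map_add, h1, h2, mul_add]⟩
  zero_mem' := ⟨S.zero_mem, by unfold Hm; simp⟩
  smul_mem' := fun c a ha => ⟨S.smul_mem ha.1 c, by
    have h1 := ha.2
    unfold Hm at *
    rw [Derivation.map_smul, h1, mul_smul_comm]⟩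

/-- the relations between the `X s` are homogeneous -/
def HRel (k : Type) {F σ : Type} [Field k] [Field F] [Algebra k F] (X : σ → F) : Prop :=
  ∀ f : MvPolynomial σ k, aeval X f = 0 → ∀ d, aeval X (homogeneousComponent d f) = 0

/-- the `X s` are the coordinates of the cone over a projective surface, `F` is its function
field -/
structure Cone (k : Type) {F σ : Type} [Field k] [Field F] [Algebra k F] (X : σ → F) : Prop where
  top : IntermediateField.adjoin k (Set.range X) = ⊤
  hmg : HRel k X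
  trd : Algebra.trdeg k F = 3

/-- the intersection of the surface with `G = 0` is smooth of dimension one (and the surface is
smooth along it): the space of the vectors which are orthogonal to all gradients has dimension at
most two -/
def Smo (X : σ → F) [Fintype σ] (G : MvPolynomial σ k) : Prop :=
  ∀ s : σ → k, s ≠ 0 → (∀ f : MvPolynomial σ k, aeval X f = 0 → eval s f = 0) → eval s G = 0 →
    ∀ y : Fin 3 → σ → k, (∀ i, ∀ f : MvPolynomial σ k, aeval X f = 0 ∨ f = G →
      ∑ j, eval s (pderiv j f) * y i j = 0) → ¬ LinearIndependent k y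

/-- linear projection: all the linear forms and denominators -/
structure Prj (X : σ → F) (u : Fin 3 → F) (θ : F) (dd : Fin 3 → Derivation k F F)
    (J : MvPolynomial (Fin 3) k) : Prop where
  ulin : ∀ l, u l ∈ Submodule.span k (Set.range X)
  tlin : θ ∈ Submodule.span k (Set.range X)
  Xint : ∀ s, Itg k u (X s)
  Xeu : ∀ s, eu u dd (X s) = X s
  gen : IntermediateField.adjoin (kF k u) {θ} = ⊤
  JI : ∀ a, Itg k u a → aeval u J * a ∈ PB k u θ
  Jd : ∀ a l, Itg k u a → aeval u J * dd l a ∈ PB k u θ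
  Jq : ∃ b ∈ PB k u θ, aeval u J = qd k u θ * b

end Defs

/-! ### Integral elements -/

/-- ITA: two forms of integrality -/
def T_ITA : Prop := ∀ (k F ι : Type) [Field k] [Field F] [Algebra k F] (u : ι → F) (a : F),
  Itg k u a ↔ IsIntegral (PA k u) a

/-- MPC: the minimal polynomial of an integral element has coefficients in `k[u]` -/
def T_MPC : Prop := ∀ (k F ι : Type) [Field k] [Field F] [Algebra k F] (u : ι → F),
  AlgebraicIndependent k u → ∀ a : F, Itg k u a →
  ∀ i, ∃ P : MvPolynomial ι k, ((minpoly (kF k u) a).coeff i : F) = aeval u P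

/-- MPH: the coefficients of the minimal polynomial of a homogeneous element are homogeneous -/
def T_MPH : Prop := ∀ (k F ι : Type) [Field k] [CharZero k] [Field F] [Algebra k F] (u : ι → F)
  (E : Derivation k F F), (∀ i, E (u i) = u i) → ∀ (a : F) (t : ℤ), IsAlgebraic (kF k u) a →
  Hm k E t a → ∀ i : ℕ, Hm k E ((((minpoly (kF k u) a).natDegree : ℤ) - i) * t)
    ((minpoly (kF k u) a).coeff i : F)

/-- HMP: homogeneous elements of `k[u]` -/
def T_HMP : Prop := ∀ (k F ι : Type) [Field k] [CharZero k] [Field F] [Algebra k F] (u : ι → F),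
  AlgebraicIndependent k u → ∀ E : Derivation k F F, (∀ i, E (u i) = u i) →
  ∀ (P : MvPolynomial ι k) (t : ℤ), Hm k E t (aeval u P) →
  (∀ d : ℕ, (d : ℤ) = t → P.IsHomogeneous d) ∧ (t < 0 → P = 0)

/-! ### Noether normalisation by linear forms -/

/-- NN1: one step -/
def T_NN1 : Prop := ∀ (k F : Type) [Field k] [Infinite k] [Field F] [Algebra k F] (n : ℕ)
  (X : Fin (n + 1) → F) (f : MvPolynomial (Fin (n + 1)) k) (d : ℕ), f.IsHomogeneous d → f ≠ 0 →
  aeval X f = 0 → ∃ c : Fin n → k,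
    Itg k (fun i : Fin n => X i.castSucc - c i • X (Fin.last n)) (X (Fin.last n))

/-- NN: algebraically independent linear forms over which everything is integral -/
def T_NN : Prop := ∀ (k F : Type) [Field k] [Infinite k] [Field F] [Algebra k F] (n : ℕ)
  (X : Fin n → F), HRel k X → ∃ (r : ℕ) (u : Fin r → F), AlgebraicIndependent k u ∧
    (∀ l, u l ∈ Submodule.span k (Set.range X)) ∧ ∀ s, Itg k u (X s)

/-- PRE: a primitive element which is a linear form -/
def T_PRE : Prop := ∀ (k F σ : Type) [Field k] [CharZero k] [Field F] [Algebra k F] [Fintype σ]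
  (L : IntermediateField k F), FiniteDimensional L F → ∀ X : σ → F,
  IntermediateField.adjoin L (Set.range X) = ⊤ →
  ∃ θ ∈ Submodule.span k (Set.range X), IntermediateField.adjoin L {θ} = ⊤

/-- NRM: the projection -/
def T_NRM : Prop := ∀ (k F σ : Type) [Field k] [CharZero k] [Field F] [Algebra k F] [Fintype σ]
  (X : σ → F), Cone k X → ∃ (u : Fin 3 → F) (θ : F), AlgebraicIndependent k u ∧
    (∀ l, u l ∈ Submodule.span k (Set.range X)) ∧ θ ∈ Submodule.span k (Set.range X) ∧
    (∀ s, Itg k u (X s)) ∧ FiniteDimensional (kF k u) F ∧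
    IntermediateField.adjoin (kF k u) {θ} = ⊤

/-! ### Derivations -/

/-- DEX: the partial derivatives -/
def T_DEX : Prop := ∀ (k F : Type) [Field k] [CharZero k] [Field F] [Algebra k F] (u : Fin 3 → F),
  AlgebraicIndependent k u → FiniteDimensional (kF k u) F →
  ∃ dd : Fin 3 → Derivation k F F, ∀ l j, dd l (u j) = if l = j then 1 else 0

/-- DUN: uniqueness -/
def T_DUN : Prop := ∀ (k F ι : Type) [Field k] [CharZero k] [Field F] [Algebra k F] (u : ι → F),
  FiniteDimensional (kF k u) F → ∀ D : Derivation k F F, (∀ i, D (u i) = 0) → D = 0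

/-- DPR: all derivations are combinations, the partial derivatives commute -/
def T_DPR : Prop := ∀ (k F : Type) [Field k] [CharZero k] [Field F] [Algebra k F] (u : Fin 3 → F)
  (dd : Fin 3 → Derivation k F F), FiniteDimensional (kF k u) F →
  (∀ l j, dd l (u j) = if l = j then 1 else 0) →
  (∀ D : Derivation k F F, D = ∑ l, D (u l) • dd l) ∧ ∀ i j a, dd i (dd j a) = dd j (dd i a)

/-- EUL: the Euler derivation -/
def T_EUL : Prop := ∀ (k F σ : Type) [Field k] [CharZero k] [Field F] [Algebra k F] [Fintype σ]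
  (X : σ → F), HRel k X → ∀ (u : Fin 3 → F) (E : Derivation k F F), AlgebraicIndependent k u →
  (∀ l, u l ∈ Submodule.span k (Set.range X)) → (∀ s, Itg k u (X s)) → (∀ l, E (u l) = u l) →
  ∀ s, E (X s) = X s

/-! ### The denominator -/

/-- QDA: the derivative of the minimal polynomial is a denominator -/
def T_QDA : Prop := ∀ (k F ι : Type) [Field k] [CharZero k] [Field F] [Algebra k F] (u : ι → F)
  (θ : F), AlgebraicIndependent k u → FiniteDimensional (kF k u) F →
  IntermediateField.adjoin (kF k u) {θ} = ⊤ → Itg k u θ →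
  (∀ a, Itg k u a → qd k u θ * a ∈ PB k u θ) ∧ qd k u θ ∈ PB k u θ ∧ qd k u θ ≠ 0

/-- QDD: the derivations -/
def T_QDD : Prop := ∀ (k F ι : Type) [Field k] [CharZero k] [Field F] [Algebra k F] (u : ι → F)
  (θ : F), AlgebraicIndependent k u → FiniteDimensional (kF k u) F → Itg k u θ →
  ∀ D : Derivation k F F, (∀ i, D (u i) ∈ PA k u) → ∀ b ∈ PB k u θ, qd k u θ * D b ∈ PB k u θ

/-- QDH: degree of `qd` and a multiple of it in `k[u]` -/
def T_QDH : Prop := ∀ (k F : Type) [Field k] [CharZero k] [Field F] [Algebra k F] (u : Fin 3 → F)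
  (θ : F) (E : Derivation k F F), AlgebraicIndependent k u → FiniteDimensional (kF k u) F →
  Itg k u θ → (∀ l, E (u l) = u l) → E θ = θ → qd k u θ ≠ 0 → qd k u θ ∈ PB k u θ →
  ∃ (P : MvPolynomial (Fin 3) k) (e : ℕ), P ≠ 0 ∧ P.IsHomogeneous e ∧
    ∃ b ∈ PB k u θ, aeval u P = qd k u θ * b

/-- JEX: the denominator -/
def T_JEX : Prop := ∀ (k F : Type) [Field k] [CharZero k] [Field F] [Algebra k F] (u : Fin 3 → F)
  (θ : F) (dd : Fin 3 → Derivation k F F), AlgebraicIndependent k u →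
  FiniteDimensional (kF k u) F → IntermediateField.adjoin (kF k u) {θ} = ⊤ → Itg k u θ →
  (∀ l j, dd l (u j) = if l = j then 1 else 0) → eu u dd θ = θ →
  ∃ (J : MvPolynomial (Fin 3) k) (j0 : ℕ), J.IsHomogeneous j0 ∧ J ≠ 0 ∧
    (∀ a, Itg k u a → aeval u J * a ∈ PB k u θ) ∧
    (∀ a l, Itg k u a → aeval u J * dd l a ∈ PB k u θ) ∧
    ∃ b ∈ PB k u θ, aeval u J = qd k u θ * b

/-- CHN: the chain rule -/
def T_CHN : Prop := ∀ (k F : Type) [Field k] [CharZero k] [Field F] [Algebra k F] (u : Fin 3 → F)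
  (θ : F) (dd : Fin 3 → Derivation k F F) (J : MvPolynomial (Fin 3) k), AlgebraicIndependent k u →
  FiniteDimensional (kF k u) F → Itg k u θ → (∀ l j, dd l (u j) = if l = j then 1 else 0) →
  (∀ a, Itg k u a → aeval u J * a ∈ PB k u θ) →
  (∀ a l, Itg k u a → aeval u J * dd l a ∈ PB k u θ) →
  (∃ b ∈ PB k u θ, aeval u J = qd k u θ * b) → Chr u dd J

/-- PHI: points of the surface where `J` is not zero are points of the normalisation -/
def T_PHI : Prop := ∀ (k F σ K : Type) [Field k] [CharZero k] [Field F] [Algebra k F] [Fintype σ]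
  [Field K] [Algebra k K] (X : σ → F) (u : Fin 3 → F) (θ : F) (dd : Fin 3 → Derivation k F F)
  (J : MvPolynomial (Fin 3) k), AlgebraicIndependent k u → Prj X u θ dd J → ∀ x : σ → K,
  (∀ f : MvPolynomial σ k, aeval X f = 0 → aeval x f = 0) →
  ∀ c : Fin 3 → σ → k, (∀ l, u l = ∑ s, c l s • X s) →
  aeval (fun l => ∑ s, c l s • x s) J ≠ 0 →
  ∃ φ : Bb k u →ₐ[k] K, ∀ (s : σ) (b : Bb k u), (b : F) = X s → φ b = x s

/-! ### Dimensions -/

/-- DMA: forms in `u` -/
def T_DMA : Prop := ∀ (k F : Type) [Field k] [CharZero k] [Field F] [Algebra k F] (u : Fin 3 → F)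
  (E : Derivation k F F), AlgebraicIndependent k u → (∀ l, E (u l) = u l) →
  (∀ t : ℤ, t < 0 → Gr (PA k u) E t = ⊥) ∧
  ∀ t : ℕ, Module.Finite k (Gr (PA k u) E t) ∧
    Module.finrank k (Gr (PA k u) E t) = (t + 2).choose 2

/-- DMB: forms in `u` and `θ` -/
def T_DMB : Prop := ∀ (k F : Type) [Field k] [CharZero k] [Field F] [Algebra k F] (u : Fin 3 → F)
  (θ : F) (E : Derivation k F F), AlgebraicIndependent k u → FiniteDimensional (kF k u) F →
  IntermediateField.adjoin (kF k u) {θ} = ⊤ → Itg k u θ → (∀ l, E (u l) = u l) → E θ = θ →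
  (∀ t : ℤ, t < 0 → Gr (PB k u θ) E t = ⊥) ∧
  ∀ t : ℕ, Module.Finite k (Gr (PB k u θ) E t) ∧
    Module.finrank k (Gr (PB k u θ) E t) =
      ∑ i ∈ Finset.range (Module.finrank (kF k u) F), if i ≤ t then (t - i + 2).choose 2 else 0

/-- BBD: dimensions of the spaces of homogeneous integral elements -/
def T_BBD : Prop := ∀ (k F : Type) [Field k] [CharZero k] [Field F] [Algebra k F] (u : Fin 3 → F)
  (θ : F) (dd : Fin 3 → Derivation k F F) (J : MvPolynomial (Fin 3) k) (j0 : ℕ),
  AlgebraicIndependent k u → FiniteDimensional (kF k u) F →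
  IntermediateField.adjoin (kF k u) {θ} = ⊤ → Itg k u θ →
  (∀ l j, dd l (u j) = if l = j then 1 else 0) → eu u dd θ = θ → J.IsHomogeneous j0 → J ≠ 0 →
  (∀ a, Itg k u a → aeval u J * a ∈ PB k u θ) →
  (∀ t : ℤ, t < 0 → BB k u (eu u dd) t = ⊥) ∧
  (∀ t : ℤ, Module.Finite k (BB k u (eu u dd) t)) ∧
  (∀ t : ℤ, Gr (PB k u θ) (eu u dd) t ≤ BB k u (eu u dd) t) ∧
  (∀ (t : ℤ) (a : F), a ∈ BB k u (eu u dd) t → aeval u J * a ∈ Gr (PB k u θ) (eu u dd) (t + j0))

/-- BBN: bounds -/
def T_BBN : Prop := ∀ (k F : Type) [Field k] [CharZero k] [Field F] [Algebra k F] (u : Fin 3 → F)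
  (θ : F) (dd : Fin 3 → Derivation k F F) (J : MvPolynomial (Fin 3) k) (j0 δ : ℕ),
  AlgebraicIndependent k u → FiniteDimensional (kF k u) F → Module.finrank (kF k u) F = δ →
  IntermediateField.adjoin (kF k u) {θ} = ⊤ → Itg k u θ →
  (∀ l j, dd l (u j) = if l = j then 1 else 0) → eu u dd θ = θ → J.IsHomogeneous j0 → J ≠ 0 →
  (∀ a, Itg k u a → aeval u J * a ∈ PB k u θ) →
  (∀ t : ℕ, 2 * Module.finrank k (BB k u (eu u dd) t) ≤ δ * (t + (j0 + δ + 2)) ^ 2) ∧
  ∀ t : ℕ, j0 + δ + 2 ≤ t →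
    δ * (t - (j0 + δ + 2)) ^ 2 ≤ 2 * Module.finrank k (BB k u (eu u dd) t)

/-- BBQ: the quotient by a form of degree `m` -/
def T_BBQ : Prop := ∀ (k F : Type) [Field k] [CharZero k] [Field F] [Algebra k F] (u : Fin 3 → F)
  (θ : F) (dd : Fin 3 → Derivation k F F) (J : MvPolynomial (Fin 3) k) (j0 δ : ℕ),
  AlgebraicIndependent k u → FiniteDimensional (kF k u) F → Module.finrank (kF k u) F = δ →
  IntermediateField.adjoin (kF k u) {θ} = ⊤ → Itg k u θ →
  (∀ l j, dd l (u j) = if l = j then 1 else 0) → eu u dd θ = θ → J.IsHomogeneous j0 → J ≠ 0 →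
  (∀ a, Itg k u a → aeval u J * a ∈ PB k u θ) → ∀ m t : ℕ,
  Module.finrank k (BB k u (eu u dd) t) ≤ Module.finrank k (BB k u (eu u dd) (t - m)) +
    δ * (m + j0) * (t + j0 + 2)

/-! ### The certificate -/

/-- DET: the maximal minors of too many vectors in the orthogonal space of three vectors -/
def T_DET : Prop := ∀ (F σ : Type) [Field F] [Fintype σ] (r : ℕ), Fintype.card σ = r + 3 →
  ∀ (v : Fin (r + 1) → σ → F) (D : Fin 3 → σ → F), LinearIndependent F D →
  (∀ i l, ∑ s, v i s * D l s = 0) → ∀ q : Fin (r + 1) → σ, (Matrix.of fun i j => v i (q j)).det = 0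

/-- GMX: minors of the gradients -/
def T_GMX : Prop := ∀ (k F σ : Type) [Field k] [CharZero k] [Field F] [Algebra k F] [Fintype σ]
  (X : σ → F) (u : Fin 3 → F) (dd : Fin 3 → Derivation k F F) (c : Fin 3 → σ → k) (r : ℕ),
  Fintype.card σ = r + 3 → (∀ l, u l = ∑ s, c l s • X s) →
  (∀ l j, dd l (u j) = if l = j then 1 else 0) →
  (∀ (f : Fin (r + 1) → MvPolynomial σ k), (∀ i, aeval X (f i) = 0) → ∀ q : Fin (r + 1) → σ,
    aeval X (Matrix.of fun i j => pderiv (q j) (f i)).det = 0) ∧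
  ∀ (f : Fin r → MvPolynomial σ k), (∀ i, aeval X (f i) = 0) → ∀ (G : MvPolynomial σ k)
    (q : Fin (r + 1) → σ),
    aeval X (Matrix.of fun i j =>
      pderiv (q j) ((Fin.snoc f G : Fin (r + 1) → MvPolynomial σ k) i)).det =
      ∑ l, dd l (aeval X G) * aeval X (Matrix.of fun i j => pderiv (q j)
        ((Fin.snoc f (∑ s, C (c l s) * MvPolynomial.X s) : Fin (r + 1) → MvPolynomial σ k) i)).det

/-- MNZ: at a point of the curve some minor is not zero -/
def T_MNZ : Prop := ∀ (k F σ : Type) [Field k] [CharZero k] [Field F] [Algebra k F] [Fintype σ]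
  (X : σ → F) (r : ℕ), Fintype.card σ = r + 3 →
  (∀ (f : Fin (r + 1) → MvPolynomial σ k), (∀ i, aeval X (f i) = 0) → ∀ q : Fin (r + 1) → σ,
    aeval X (Matrix.of fun i j => pderiv (q j) (f i)).det = 0) →
  ∀ G : MvPolynomial σ k, Smo X G → ∀ s : σ → k, s ≠ 0 →
  (∀ f : MvPolynomial σ k, aeval X f = 0 → eval s f = 0) → eval s G = 0 →
  ∃ (f : Fin r → MvPolynomial σ k) (q : Fin (r + 1) → σ), (∀ i, aeval X (f i) = 0) ∧
    eval s (Matrix.of fun i j =>
      pderiv (q j) ((Fin.snoc f G : Fin (r + 1) → MvPolynomial σ k) i)).det ≠ 0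

/-- CRT: the certificate -/
def T_CRT : Prop := ∀ (k F σ : Type) [Field k] [IsAlgClosed k] [CharZero k] [Field F] [Algebra k F]
  [Fintype σ] (X : σ → F) (u : Fin 3 → F) (dd : Fin 3 → Derivation k F F) (m : ℕ)
  (G : MvPolynomial σ k), Algebra.trdeg k F = 3 → AlgebraicIndependent k u →
  (∀ l, u l ∈ Submodule.span k (Set.range X)) → (∀ s, Itg k u (X s)) →
  (∀ l j, dd l (u j) = if l = j then 1 else 0) → (∀ s, eu u dd (X s) = X s) → 1 ≤ m →
  G.IsHomogeneous m → Smo X G →
  ∃ c : ℕ, ∀ i, ∃ e : Fin 3 → F, (∀ l, Itg k u (e l)) ∧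
    u i ^ c = ∑ l, e l * dd l (aeval X G)

/-! ### Results of the chapter -/

/-- SFC: the surface -/
def T_SFC : Prop := ∀ (k F σ : Type) [Field k] [CharZero k] [Field F] [Algebra k F] [Fintype σ]
  (X : σ → F), Cone k X → ∃ (u : Fin 3 → F) (θ : F) (dd : Fin 3 → Derivation k F F)
    (δ j0 c0 : ℕ) (J : MvPolynomial (Fin 3) k), Sfc u dd δ j0 c0 J ∧ Prj X u θ dd J ∧
    FiniteDimensional (kF k u) F

/-- CRV: the curve -/
def T_CRV : Prop := ∀ (k F σ : Type) [Field k] [IsAlgClosed k] [CharZero k] [Field F]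
  [Algebra k F] [Fintype σ] (X : σ → F), Cone k X → ∀ (u : Fin 3 → F) (θ : F)
  (dd : Fin 3 → Derivation k F F) (δ j0 c0 : ℕ) (J : MvPolynomial (Fin 3) k),
  Sfc u dd δ j0 c0 J → Prj X u θ dd J → ∀ (m : ℕ) (G : MvPolynomial σ k), 1 ≤ m →
  G.IsHomogeneous m → aeval X G ≠ 0 → Smo X G →
  (∀ a b : F, IsIntegral (PA k X) a → IsIntegral (PA k X) b → IsIntegral (PA k X)
    (a * b / aeval X G) → IsIntegral (PA k X) (a / aeval X G) ∨
    IsIntegral (PA k X) (b / aeval X G)) → Crd u dd m (aeval X G)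

/-- FRC: the function field of a homogeneous prime ideal -/
def T_FRC : Prop := ∀ (k σ : Type) [Field k] [Fintype σ] (I : Ideal (MvPolynomial σ k))
  [I.IsPrime], (∀ f ∈ I, ∀ d, homogeneousComponent d f ∈ I) →
  Algebra.trdeg k (FractionRing (MvPolynomial σ k ⧸ I)) = 3 →
  Cone k (fun s : σ => algebraMap (MvPolynomial σ k ⧸ I) (FractionRing (MvPolynomial σ k ⧸ I))
    (Ideal.Quotient.mk I (X s)))

end Pool.Agent.H17.SD
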