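import Pool.Agent.H17.SD.Targets

/-!
# MP_70ba79_ag, THEOREM S (surfaces), chapter 1, targets, part 2: homogeneous certificate
-/

set_option autoImplicit false

namespace Pool.Agent.H17.SD

open MvPolynomial SC Pool.Agent.H27.LV
open Pool.Agent.H92.SF Pool.Agent.H3.SF

/-- CRP: the certificate, the coefficients are polynomials in the `X s` -/
def T_CRP : Prop := ∀ (k F σ : Type) [Field k] [IsAlgClosed k] [CharZero k] [Field F] [Algebra k F]
  [Fintype σ] (X : σ → F) (u : Fin 3 → F) (dd : Fin 3 → Derivation k F F) (m : ℕ)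
  (G : MvPolynomial σ k), Algebra.trdeg k F = 3 → AlgebraicIndependent k u →
  (∀ l, u l ∈ Submodule.span k (Set.range X)) → (∀ s, Itg k u (X s)) →
  (∀ l j, dd l (u j) = if l = j then 1 else 0) → (∀ s, eu u dd (X s) = X s) → 1 ≤ m →
  G.IsHomogeneous m → Smo X G →
  ∃ c : ℕ, ∀ i, ∃ e : Fin 3 → F, (∀ l, e l ∈ PA k X) ∧
    u i ^ c = ∑ l, e l * dd l (aeval X G)

/-- CRH: the certificate with homogeneous coefficients -/
def T_CRH : Prop := ∀ (k F σ : Type) [Field k] [IsAlgClosed k] [CharZero k] [Field F] [Algebra k F]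
  [Fintype σ] (X : σ → F) (u : Fin 3 → F) (dd : Fin 3 → Derivation k F F) (m : ℕ)
  (G : MvPolynomial σ k), Algebra.trdeg k F = 3 → AlgebraicIndependent k u →
  (∀ l, u l ∈ Submodule.span k (Set.range X)) → (∀ s, Itg k u (X s)) →
  (∀ l j, dd l (u j) = if l = j then 1 else 0) → (∀ l j a, dd l (dd j a) = dd j (dd l a)) →
  (∀ s, eu u dd (X s) = X s) → 1 ≤ m → G.IsHomogeneous m → Smo X G →
  ∃ c : ℕ, ∀ i, ∃ e : Fin 3 → F,
    (∀ l, e l ∈ PA k X ∧ Itg k u (e l) ∧ Hm k (eu u dd) ((c : ℤ) + 1 - m) (e l)) ∧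
    u i ^ c = ∑ l, e l * dd l (aeval X G)

end Pool.Agent.H17.SD
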