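import Pool.Agent.H17.SD.Targets2

/-!
# MP_70ba79_ag, THEOREM S (surfaces), chapter 1, targets, part 3: the grading
-/

set_option autoImplicit false

namespace Pool.Agent.H17.SD

open MvPolynomial SC Pool.Agent.H27.LV
open Pool.Agent.H92.SF Pool.Agent.H3.SF

/-- GRD: integral elements are sums of homogeneous integral elements -/
def T_GRD : Prop := ∀ (k F σ : Type) [Field k] [CharZero k] [Field F] [Algebra k F] [Fintype σ]
  (X : σ → F) (u : Fin 3 → F) (θ : F) (dd : Fin 3 → Derivation k F F)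
  (J : MvPolynomial (Fin 3) k) (j0 : ℕ), HRel k X →
  (∀ l, u l ∈ Submodule.span k (Set.range X)) → θ ∈ Submodule.span k (Set.range X) →
  (∀ s, eu u dd (X s) = X s) → J.IsHomogeneous j0 → aeval u J ≠ 0 →
  (∀ a, Itg k u a → aeval u J * a ∈ PB k u θ) →
  ∀ a, Itg k u a → a ∈ ⨆ t : ℤ, BB k u (eu u dd) t

end Pool.Agent.H17.SD
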